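import Pool.Agent.H72.InclVar

set_option autoImplicit false

namespace Pool.Agent.Results.MP_f75ac6_al.NoMaximal

open H72.InclVar

universe u

/-- Every nonelementary inclusive variety of semigroups is properly contained in another
nonelementary inclusive variety: there is no maximal nonelementary inclusive variety. -/
theorem result (M : Set Semigrp.{u}) (hM : IsInclVar M) (hn : ¬ IsElem M) :
    ∃ M' : Set Semigrp.{u}, IsInclVar M' ∧ ¬ IsElem M' ∧ M ⊂ M' :=
  no_max M hM hn

end Pool.Agent.Results.MP_f75ac6_al.NoMaximal
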